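import Pool.Agent.KIR.S3.Stm

/-!
# KIR, section S3, piece EST
-/

set_option autoImplicit false

namespace Pool.Agent.KIR.S3

open MvPolynomial Pool.Agent.KIR Pool.Agent.KIR.S2

/-- EST -/
theorem t_EST (h1 : S_MAT) (h2 : S_GRP) (h4 : S_POLY) : S_EST := by
  intro σ _ _ g g' e I hg hg' hO hs hs' hT
  obtain ⟨m1, -, m3, -⟩ := h1 σ g g' e hg hg' hO
  obtain ⟨-, g2, g3, -, -⟩ := h2 σ g
  have key : ∀ f ∈ I, rename e f ∈ I := by
    intro f hf
    have a := m1 1 one_ne_zero (sub g 1 f)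
    have e0 : (-(1 : ℂ)⁻¹ + 1) = 0 := by norm_num
    rw [g2 hg (-(1 : ℂ)⁻¹) 1 f, e0, g3] at a
    have b : sub g 1 (rename e f) ∈ I := by
      rw [a]
      refine (h4 σ g' I).1 hs' _ _ (hT _ _ ?_ one_ne_zero _ ((h4 σ g I).1 hs 1 f hf))
      norm_num
    have c : rename e f = sub g (-1) (sub g 1 (rename e f)) := by
      rw [g2 hg (-1) 1, neg_add_cancel, g3]
    rw [c]
    exact (h4 σ g I).1 hs (-1) _ b
  apply le_antisymm
  · intro f hf
    have a : rename e f ∈ I := hf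
    have b := key _ a
    rwa [m3] at b
  · intro f hf
    exact key f hf

end Pool.Agent.KIR.S3
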