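import Pool.Agent.KIR.S3.Stm

/-!
# KIR, section S3, piece LIMI: the reflected ideal is in the limit
-/

set_option autoImplicit false

namespace Pool.Agent.KIR.S3

open MvPolynomial Pool.Agent.KIR Pool.Agent.KIR.S2

/-- LIMI -/
theorem t_LIMI (h1 : S_MAT) (h2 : S_GRP) (h3 : S_VDM) (h4 : S_POLY) : S_LIMI := by
  intro σ _ _ g g' e P hg hg' hO hs' hT f hf
  obtain ⟨m1, -, -, -⟩ := h1 σ g g' e hg hg' hO
  obtain ⟨g1, -, -, g4, -⟩ := h2 σ g
  obtain ⟨K, hK⟩ : ∃ K, K = (op g f).natDegree := ⟨_, rfl⟩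
  obtain ⟨D, hD⟩ : ∃ D : ℕ → S σ, ∀ k, D k = (op g f).coeff k := ⟨_, fun _ => rfl⟩
  have hsub : ∀ u : ℂ, sub g u f = ∑ k ∈ Finset.range (K + 1), D k * C u ^ k := by
    intro u
    rw [← g1 u f, Polynomial.eval_eq_sum_range, hK]
    exact Finset.sum_congr rfl fun k _ => by rw [hD]
  obtain ⟨R, hR⟩ : ∃ R : Polynomial (S σ), R = ∑ k ∈ Finset.range (K + 1),
      Polynomial.X ^ (K - k) * op g (C ((-1) ^ k) * rename e (D k)) := ⟨_, rfl⟩
  have hRev : ∀ t : ℂ, R.eval (C t) = ∑ k ∈ Finset.range (K + 1),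
      C t ^ (K - k) * (C ((-1) ^ k) * sub g t (rename e (D k))) := by
    intro t
    rw [hR, Polynomial.eval_finsetSum]
    refine Finset.sum_congr rfl fun k _ => ?_
    rw [Polynomial.eval_mul, Polynomial.eval_pow, Polynomial.eval_X, g1, map_mul,
      MvPolynomial.algHom_C, MvPolynomial.algebraMap_eq]
  have hRmem : ∀ t : ℂ, t ≠ 0 → R.eval (C t) ∈ P := by
    intro t ht
    have a := m1 t ht f
    have b : sub g t (rename e (sub g (-t⁻¹) f)) ∈ P := by
      rw [a]
      exact (h4 σ g' P).1 hs' _ _ (hT _ _ (neg_ne_zero.2 (inv_ne_zero ht)) ht _ hf)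
    have c : R.eval (C t) = C (t ^ K) * sub g t (rename e (sub g (-t⁻¹) f)) := by
      rw [hRev, hsub, map_sum, map_sum, Finset.mul_sum]
      refine Finset.sum_congr rfl fun k hk => ?_
      have hk' : k ≤ K := Nat.lt_succ_iff.1 (Finset.mem_range.1 hk)
      have e4 : sub g t (rename e (D k * C (-t⁻¹) ^ k)) =
          sub g t (rename e (D k)) * C ((-t⁻¹) ^ k) := by
        rw [← C_pow, map_mul, map_mul, rename_C, MvPolynomial.algHom_C,
          MvPolynomial.algebraMap_eq]
      rw [e4, ← C_pow]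
      have e1 : t ^ K * (-t⁻¹) ^ k = t ^ (K - k) * (-1) ^ k := by
        have e2 : t ^ K = t ^ (K - k) * t ^ k := by rw [← pow_add, Nat.sub_add_cancel hk']
        rw [e2, mul_assoc, ← mul_pow]
        congr 2
        field_simp
      have e3 : C (σ := σ) (t ^ K) * (sub g t (rename e (D k)) * C ((-t⁻¹) ^ k)) =
          C (t ^ K * (-t⁻¹) ^ k) * sub g t (rename e (D k)) := by
        rw [C_mul]
        ring
      rw [e3, e1, C_mul]
      ring
    rw [c]
    exact P.mul_mem_left _ b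
  have hXR : ∀ t : ℂ, (Polynomial.X * R).eval (C t) ∈ P := by
    intro t
    rw [Polynomial.eval_mul, Polynomial.eval_X]
    by_cases ht : t = 0
    · rw [ht, C_0, zero_mul]
      exact P.zero_mem
    · exact P.mul_mem_left _ (hRmem t ht)
  have hcoef := (h3 σ P (Polynomial.X * R)).2 hXR
  have hmap : Polynomial.map (Ideal.Quotient.mk P) R = 0 := by
    ext k
    rw [Polynomial.coeff_map, Polynomial.coeff_zero]
    have a := hcoef (k + 1)
    rw [Polynomial.coeff_X_mul] at a
    exact Ideal.Quotient.eq_zero_iff_mem.2 a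
  apply Ideal.subset_span
  refine ⟨K, fun j => -(C ((-1) ^ (K - j)) * rename e (D (K - j))), ?_⟩
  rw [hR, Polynomial.map_sum, ← Finset.sum_range_reflect, Finset.sum_range_succ] at hmap
  have e1 : ∀ j ∈ Finset.range K, Polynomial.map (Ideal.Quotient.mk P)
      (Polynomial.X ^ (K - (K + 1 - 1 - j)) *
        op g (C ((-1) ^ (K + 1 - 1 - j)) * rename e (D (K + 1 - 1 - j)))) =
      -(Polynomial.X ^ j * opm g P (-(C ((-1) ^ (K - j)) * rename e (D (K - j))))) := by
    intro j hj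
    have hj' : j < K := Finset.mem_range.1 hj
    rw [map_neg, mul_neg, neg_neg, Polynomial.map_mul, Polynomial.map_pow, Polynomial.map_X,
      Nat.add_sub_cancel, Nat.sub_sub_self hj'.le]
    rfl
  rw [Finset.sum_congr rfl e1, Finset.sum_neg_distrib, Nat.add_sub_cancel, Nat.sub_self,
    Nat.sub_zero, pow_zero, C_1, one_mul, hD 0, g4, Polynomial.map_mul, Polynomial.map_pow,
    Polynomial.map_X, neg_add_eq_zero] at hmap
  rw [hmap]
  rfl

end Pool.Agent.KIR.S3
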