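import Pool.Agent.KIR.S3.Stm
/-!
# KIR, section S3, piece MAT (helper23): matrix identities
-/
set_option autoImplicit false
namespace Pool.Agent.KIR.S3
open MvPolynomial Filter Topology Pool.Agent.KIR Pool.Agent.KIR.S2

namespace MATP

variable {σ : Type}

theorem sub_X (g : σ → Option σ) (t : ℂ) (x : σ) :
    sub g t (X x) = X x + C t * ((g x).elim 0 (fun s' => X s')) := by
  rw [sub, aeval_X]

theorem sub_some {g : σ → Option σ} (t : ℂ) {x y : σ} (h : g x = some y) :
    sub g t (X x) = X x + C t * X y := by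
  rw [sub_X, h]; rfl

theorem sub_none {g : σ → Option σ} (t : ℂ) {x : σ} (h : g x = none) :
    sub g t (X x) = X x := by
  rw [sub_X, h]; simp

theorem sub_C (g : σ → Option σ) (t c : ℂ) : sub g t (C c) = C c := by
  rw [← algebraMap_eq, AlgHom.commutes]

theorem tor_C (g g' : σ → Option σ) (l m c : ℂ) : tor g g' l m (C c) = C c := by
  rw [← algebraMap_eq, AlgHom.commutes]

theorem tor_l {g g' : σ → Option σ} (l m : ℂ) {x y : σ} (h : g x = some y) :
    tor g g' l m (X x) = C l * X x := by
  rw [tor, aeval_X, if_pos (by rw [h]; rfl)]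

theorem tor_m {g g' : σ → Option σ} (l m : ℂ) {x y : σ} (h : g x = none) (h' : g' x = some y) :
    tor g g' l m (X x) = C m * X x := by
  rw [tor, aeval_X, if_neg (by rw [h]; simp), if_pos (by rw [h']; rfl)]

theorem tor_n {g g' : σ → Option σ} (l m : ℂ) {x : σ} (h : g x = none) (h' : g' x = none) :
    tor g g' l m (X x) = X x := by
  rw [tor, aeval_X, if_neg (by rw [h]; simp), if_neg (by rw [h']; simp)]

/-- the three cases -/
theorem cases3 {g g' : σ → Option σ} {e : Equiv.Perm σ} (hg : Flat g) (hg' : Flat g')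
    (ho : Opp g g' e) (x : σ) :
    (∃ y, g x = some y ∧ g y = none ∧ g' y = some x ∧ g' x = none ∧ e x = y ∧ e y = x) ∨
    (∃ y, g x = none ∧ g' x = some y ∧ g y = some x ∧ g' y = none ∧ e x = y ∧ e y = x) ∨
    (g x = none ∧ g' x = none ∧ e x = x) := by
  rcases hx : g x with _ | y
  · rcases hx' : g' x with _ | y
    · exact Or.inr (Or.inr ⟨rfl, rfl, ho.2.2 x hx hx'⟩)
    · have h1 : g y = some x := (ho.1 y x).2 hx'
      obtain ⟨h2, h3⟩ := ho.2.1 y x h1
      exact Or.inr (Or.inl ⟨y, rfl, rfl, h1, hg' x y hx', h3, h2⟩)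
  · have h1 : g' y = some x := (ho.1 x y).1 hx
    obtain ⟨h2, h3⟩ := ho.2.1 x y hx
    exact Or.inl ⟨y, rfl, hg x y hx, h1, hg' y x h1, h2, h3⟩

end MATP

open MATP in
/-- **MAT** -/
theorem t_MAT : S_MAT := by
  intro σ _ _ g g' e hg hg' ho
  have hee : ∀ s, e (e s) = s := by
    intro s
    rcases cases3 hg hg' ho s with ⟨y, -, -, -, -, h1, h2⟩ | ⟨y, -, -, -, -, h1, h2⟩ | ⟨-, -, h1⟩
    · rw [h1, h2]
    · rw [h1, h2]
    · rw [h1, h1]
  refine ⟨?_, ?_, ?_, hee⟩
  · intro t ht f
    have hC : (C t⁻¹ : S σ) * C t = 1 := by rw [← C_mul, inv_mul_cancel₀ ht, C_1]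
    have key : (sub g t).comp ((rename e : S σ →ₐ[ℂ] S σ).comp (sub g (-t⁻¹))) =
        (sub g' t⁻¹).comp (tor g g' (-t⁻¹) t) := by
      apply MvPolynomial.algHom_ext
      intro x
      simp only [AlgHom.comp_apply]
      rcases cases3 hg hg' ho x with ⟨y, h1, h2, h3, h4, h5, h6⟩ | ⟨y, h1, h2, h3, h4, h5, h6⟩ |
        ⟨h1, h2, h3⟩
      · rw [sub_some _ h1, tor_l _ _ h1]
        have hCn : (C (-t⁻¹) : S σ) = - C t⁻¹ := C_neg ..
        simp only [map_add, map_mul, rename_X, rename_C, h5, h6, sub_C, sub_none _ h2,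
          sub_some _ h1, sub_none _ h4]
        rw [hCn]
        linear_combination (-X y : S σ) * hC
      · rw [sub_none _ h1, tor_m _ _ h1 h2]
        simp only [map_mul, rename_X, h5, sub_C, sub_some _ h2, sub_some _ h3]
        linear_combination (-X y : S σ) * hC
      · rw [sub_none _ h1, tor_n _ _ h1 h2, rename_X, h3, sub_none _ h1, sub_none _ h2]
    exact DFunLike.congr_fun key f
  · intro t r hu f
    set u : ℂ := 1 + r * t with hudef
    have hC1 : (C u⁻¹ : S σ) + C (t / u) * C u * C (r / u) = 1 := by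
      rw [← C_mul, ← C_mul, ← C_add, ← C_1]
      congr 1
      field_simp
      rw [hudef]
      ring
    have hC2 : (C (t / u) : S σ) * C u = C t := by
      rw [← C_mul]
      congr 1
      field_simp
    have hB1 : (C u : S σ) = 1 + C r * C t := by
      rw [hudef, C_add, C_mul, C_1]
    have hB2 : (C u : S σ) * C (r / u) = C r := by
      rw [← C_mul]
      congr 1
      field_simp
    have key : (sub g t).comp (sub g' r) =
        (sub g' (r / u)).comp ((tor g g' u⁻¹ u).comp (sub g (t / u))) := by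
      apply MvPolynomial.algHom_ext
      intro x
      simp only [AlgHom.comp_apply]
      rcases cases3 hg hg' ho x with ⟨y, h1, h2, h3, h4, h5, h6⟩ | ⟨y, h1, h2, h3, h4, h5, h6⟩ |
        ⟨h1, h2, h3⟩
      · rw [sub_none _ h4, sub_some _ h1, sub_some _ h1]
        simp only [map_add, map_mul, tor_C, tor_l _ _ h1, tor_m _ _ h2 h3, sub_C,
          sub_none _ h4, sub_some _ h3]
        linear_combination (-X x : S σ) * hC1 + (-X y : S σ) * hC2
      · rw [sub_some _ h2, sub_none _ h1, tor_m _ _ h1 h2]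
        simp only [map_add, map_mul, sub_C, sub_none _ h1, sub_some _ h3, sub_some _ h2]
        linear_combination (-X x : S σ) * hB1 + (-X y : S σ) * hB2
      · rw [sub_none _ h2, sub_none _ h1, sub_none _ h1, tor_n _ _ h1 h2, sub_none _ h2]
    exact DFunLike.congr_fun key f
  · intro f
    rw [rename_rename]
    have h1 : (e : σ → σ) ∘ e = id := funext hee
    rw [h1, rename_id_apply]

end Pool.Agent.KIR.S3
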