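import Pool.Agent.KIR.S3.Stm

/-!
# KIR, section S3, piece PT (helper55): a symmetric parameter vector
-/

set_option autoImplicit false

namespace Pool.Agent.KIR.S3

open MvPolynomial Pool.Agent.KIR Pool.Agent.KIR.S2

namespace PT

theorem pair_lin {ρ : Type} [Fintype ρ] (α p p1 p2 : ρ → ℤ) (τ : ℤ) :
    pair α (fun i => 2 * p i - τ * (p1 i - p2 i)) =
      2 * pair α p - τ * (pair α p1 - pair α p2) := by
  unfold pair
  rw [Finset.mul_sum, ← Finset.sum_sub_distrib, Finset.mul_sum, ← Finset.sum_sub_distrib]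
  refine Finset.sum_congr rfl fun i _ => ?_
  ring

theorem pair_add_left {ρ : Type} [Fintype ρ] (x y p : ρ → ℤ) :
    pair (x + y) p = pair x p + pair y p := by
  unfold pair
  rw [← Finset.sum_add_distrib]
  refine Finset.sum_congr rfl fun i _ => ?_
  rw [Pi.add_apply, add_mul]

end PT

open PT in
theorem t_PT : S_PT := by
  intro σ ρ _ _ _ W g g' e α hg hg' ho hα hex hpos hp12
  obtain ⟨p, hp⟩ := hpos
  obtain ⟨p1, p2, h12, h0⟩ := hp12
  obtain ⟨ho1, ho2, ho3⟩ := ho
  have hadd : ∀ s s', g s = some s' → pair (W s) p = pair (W s') p + pair α p := by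
    intro s s' h
    rw [hα s s' h, pair_add_left]
  have v1 : ∀ s s', g s = some s' → pair (W s) (fun i => 2 * p i - pair α p * (p1 i - p2 i)) =
      pair (W s) p + pair (W s') p := by
    intro s s' h
    obtain ⟨a1, a2, a3, a4⟩ := h12 s s' h
    rw [pair_lin, a1, a3, hadd s s' h]
    ring
  have v2 : ∀ s s', g s = some s' → pair (W s') (fun i => 2 * p i - pair α p * (p1 i - p2 i)) =
      pair (W s) p + pair (W s') p := by
    intro s s' h
    obtain ⟨a1, a2, a3, a4⟩ := h12 s s' h
    rw [pair_lin, a2, a4, hadd s s' h]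
    ring
  refine ⟨fun i => 2 * p i - pair α p * (p1 i - p2 i), ?_, ?_, ?_⟩
  · intro s
    rcases hgs : g s with _ | s'
    · rcases hgs' : g' s with _ | y
      · obtain ⟨b1, b2⟩ := h0 s hgs hgs'
        rw [pair_lin, b1, b2]
        have := hp s
        linarith
      · have h := (ho1 y s).2 hgs'
        rw [v2 y s h]
        exact add_pos (hp _) (hp _)
    · rw [v1 s s' hgs]
      exact add_pos (hp _) (hp _)
  · obtain ⟨s, s', h⟩ := hex
    obtain ⟨a1, a2, a3, a4⟩ := h12 s s' h
    have c1 : pair α p1 = 1 := by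
      have := hα s s' h
      rw [this, pair_add_left, a2] at a1
      linarith
    have c2 : pair α p2 = -1 := by
      have := hα s s' h
      rw [this, pair_add_left, a4] at a3
      linarith
    rw [pair_lin, c1, c2]
    ring
  · intro s
    rcases hgs : g s with _ | s'
    · rcases hgs' : g' s with _ | y
      · rw [ho3 s hgs hgs']
      · have h := (ho1 y s).2 hgs'
        rw [(ho2 y s h).2, v1 y s h, v2 y s h]
    · rw [(ho2 s s' hgs).1, v1 s s' hgs, v2 s s' hgs]

end Pool.Agent.KIR.S3
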