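import Pool.Agent.KIR.S3.Stm

/-!
# KIR, section S3, piece PZB (helper55): `PZ` is stable under the opposite group
-/

set_option autoImplicit false

namespace Pool.Agent.KIR.S3

open MvPolynomial Pool.Agent.KIR Pool.Agent.KIR.S2

theorem t_PZB (h1 : S_MAT) (h2 : S_GRP) (h3 : S_VDM) (h4 : S_POLY) (h5 : S_PZF) : S_PZB := by
  intro σ _ _ g g' e P hg hg' ho hS hT
  have hmem : ∀ f : S σ, f ∈ PZ g P ↔ ∀ t : ℂ, sub g t f ∈ P := by
    intro f
    rw [(h5 σ g P).1 f, h3 σ P (op g f)]
    refine forall_congr' fun t => ?_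
    rw [(h2 σ g).1 t f]
  have hS' := (h4 σ g' P).1 hS
  refine (h4 σ g' (PZ g P)).2 ?_
  intro r f hf
  rw [(h5 σ g P).1]
  set F : Polynomial (S σ) := op g (sub g' r f) with hF
  have hf' := (hmem f).1 hf
  have hR : ∀ t : ℂ, ((1 + Polynomial.C (C r) * Polynomial.X) * F).eval (C t) ∈ P := by
    intro t
    rw [Polynomial.eval_mul, Polynomial.eval_add, Polynomial.eval_one, Polynomial.eval_mul,
      Polynomial.eval_C, Polynomial.eval_X, hF, (h2 σ g).1]
    have e1 : (1 + C r * C t : S σ) = C (1 + r * t) := by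
      rw [C_add, C_mul, C_1]
    rw [e1]
    by_cases h0 : 1 + r * t = 0
    · rw [h0, C_0, zero_mul]
      exact P.zero_mem
    · refine Ideal.mul_mem_left _ _ ?_
      rw [(h1 σ g g' e hg hg' ho).2.1 t r h0 f]
      exact hS' _ _ (hT _ _ (inv_ne_zero h0) h0 _ (hf' _))
  have hc := (h3 σ P _).2 hR
  have e2 : (1 + Polynomial.C (C r) * Polynomial.X) * F = F + Polynomial.C (C r) * (Polynomial.X * F) := by
    ring
  rw [e2] at hc
  intro k
  induction k with
  | zero =>
    have := hc 0
    rw [Polynomial.coeff_add, Polynomial.coeff_C_mul, Polynomial.coeff_X_mul_zero, mul_zero,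
      add_zero] at this
    exact this
  | succ k ih =>
    have := hc (k + 1)
    rw [Polynomial.coeff_add, Polynomial.coeff_C_mul, Polynomial.coeff_X_mul] at this
    exact (Ideal.add_mem_iff_left P (Ideal.mul_mem_left _ _ ih)).1 this

end Pool.Agent.KIR.S3
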