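import Pool.Agent.KIR.Defs
/-!
# KIR section S3, piece TRA: transport of the normalized Hilbert series by a permutation
-/
set_option autoImplicit false
set_option linter.all false
namespace Pool.Agent.KIR.S3
open MvPolynomial Filter Topology Pool.Agent.KIR

lemma whs_map {σ : Type} (e : Equiv.Perm σ) (w w' : σ → ℕ) (h : ∀ s, w' (e s) = w s) (a : ℕ)
    (f : S σ) (hf : f ∈ weightedHomogeneousSubmodule ℂ w a) :
    rename e f ∈ weightedHomogeneousSubmodule ℂ w' a := by
  rw [mem_weightedHomogeneousSubmodule] at hf ⊢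
  have hw : w = w' ∘ e := by funext s; exact (h s).symm
  rw [hw] at hf
  intro d hd
  classical
  obtain ⟨u, rfl, hu⟩ := coeff_rename_ne_zero _ _ _ hd
  have := hf hu
  rw [← this, Finsupp.weight_apply, Finsupp.weight_apply, Finsupp.sum_mapDomain_index]
  · rfl
  · intro; simp
  · intro b m1 m2; exact add_smul _ _ _

lemma whs_eq {σ : Type} (e : Equiv.Perm σ) (w w' : σ → ℕ) (h : ∀ s, w' (e s) = w s) (a : ℕ) :
    (weightedHomogeneousSubmodule ℂ w a).map (renameEquiv ℂ e).toLinearMap =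
      weightedHomogeneousSubmodule ℂ w' a := by
  apply le_antisymm
  · rintro _ ⟨f, hf, rfl⟩
    exact whs_map e w w' h a f hf
  · intro f hf
    refine ⟨rename e.symm f, whs_map e.symm w' w (fun s => ?_) a f hf, ?_⟩
    · rw [← h, Equiv.apply_symm_apply]
    · simp [rename_rename]

lemma hf_tra {σ : Type} (e : Equiv.Perm σ) (w w' : σ → ℕ) (h : ∀ s, w' (e s) = w s)
    (I : Ideal (S σ)) (a : ℕ) :
    hf w (I.comap (rename e : S σ →ₐ[ℂ] S σ)) a = hf w' I a := by
  unfold hf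
  rw [← whs_eq e w w' h a]
  -- the isomorphism of quotients
  set J := I.comap (rename e : S σ →ₐ[ℂ] S σ) with hJ
  let φ : (S σ ⧸ J) →ₗ[ℂ] (S σ ⧸ I) :=
    (Ideal.quotientMapₐ I (rename e : S σ →ₐ[ℂ] S σ) (le_of_eq hJ)).toLinearMap
  have hinj : Function.Injective φ := by
    intro x y hxy
    obtain ⟨x, rfl⟩ := Ideal.Quotient.mk_surjective x
    obtain ⟨y, rfl⟩ := Ideal.Quotient.mk_surjective y
    have h1 : Ideal.Quotient.mk I (rename e x) = Ideal.Quotient.mk I (rename e y) := hxy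
    rw [Ideal.Quotient.eq] at h1 ⊢
    rw [← map_sub] at h1
    exact h1
  have hcomp : φ ∘ₗ (Ideal.Quotient.mkₐ ℂ J).toLinearMap =
      (Ideal.Quotient.mkₐ ℂ I).toLinearMap ∘ₗ (renameEquiv ℂ e).toLinearMap := by
    ext f
    rfl
  rw [← Submodule.map_comp, ← hcomp, Submodule.map_comp]
  exact (LinearEquiv.finrank_eq (Submodule.equivMapOfInjective φ hinj _))

theorem tra {σ : Type} [Fintype σ] (e : Equiv.Perm σ) (w w' : σ → ℕ) (h : ∀ s, w' (e s) = w s)
    (I : Ideal (S σ)) (c : ℕ) :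
    G c w (I.comap (rename e : S σ →ₐ[ℂ] S σ)) = G c w' I := by
  funext q
  unfold G Hs
  have h1 : (∏ s, (w s : ℝ)) = ∏ s, (w' s : ℝ) := by
    rw [← Equiv.prod_comp e (fun s => (w' s : ℝ))]
    apply Finset.prod_congr rfl
    intro s _
    rw [h]
  rw [h1]
  simp only [hf_tra e w w' h]

theorem tra_Has {σ : Type} [Fintype σ] (e : Equiv.Perm σ) (w w' : σ → ℕ) (h : ∀ s, w' (e s) = w s)
    (I : Ideal (S σ)) (c : ℕ) :
    Has c w (I.comap (rename e : S σ →ₐ[ℂ] S σ)) ↔ Has c w' I := by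
  unfold Has
  rw [tra e w w' h]

theorem tra_cl {σ : Type} [Fintype σ] (e : Equiv.Perm σ) (w w' : σ → ℕ) (h : ∀ s, w' (e s) = w s)
    (I : Ideal (S σ)) (c : ℕ) :
    cl c w (I.comap (rename e : S σ →ₐ[ℂ] S σ)) = cl c w' I := by
  unfold cl
  rw [tra e w w' h]

end Pool.Agent.KIR.S3
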