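import Pool.Agent.KIR.S3.Stm
import Pool.Agent.KIR.S3.TRA
/-!
# KIR section S3, piece SYM: a permutation of the variables
-/
set_option autoImplicit false
namespace Pool.Agent.KIR.S3
open MvPolynomial Filter Topology Pool.Agent.KIR Pool.Agent.KIR.S2

theorem t_SYM : S_SYM := by
  intro σ _ _ e w w' h I
  refine ⟨fun a => (hf_tra e w w' h I a).symm, fun q => ?_, fun c => ⟨(tra_Has e w w' h I c).symm,
    (tra_cl e w w' h I c).symm⟩⟩
  unfold Hs
  exact tsum_congr fun a => by rw [hf_tra e w w' h I a]

end Pool.Agent.KIR.S3
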