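import Pool.Agent.KIR.S3.Stm
/-!
# KIR, section S3, piece TOR: graded ideals are stable under the torus elements
-/
set_option autoImplicit false
namespace Pool.Agent.KIR.S3
open MvPolynomial Filter Topology Pool.Agent.KIR Pool.Agent.KIR.S2

theorem TOR_coeff {σ : Type} [Fintype σ] [DecidableEq σ] (c : σ → ℂ) (f : S σ) (k : σ →₀ ℕ) :
    coeff k (aeval (fun s => C (c s) * X s : σ → S σ) f) = (∏ s, c s ^ k s) * coeff k f := by
  induction f using MvPolynomial.induction_on' with
  | monomial m a =>
    have h1 : aeval (fun s => C (c s) * X s : σ → S σ) (monomial m a) =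
        C (∏ s, c s ^ m s) * monomial m a := by
      rw [aeval_monomial, monomial_eq (s := m), Finsupp.prod_fintype _ _ (fun i => pow_zero _),
        Finsupp.prod_fintype _ _ (fun i => pow_zero _), algebraMap_eq, map_prod]
      simp only [mul_pow, Finset.prod_mul_distrib, map_pow]
      ring
    rw [h1, coeff_C_mul, coeff_monomial]
    by_cases h : m = k
    · rw [h]
    · rw [if_neg h, mul_zero, mul_zero]
  | add p q hp hq => rw [map_add, coeff_add, hp, hq, coeff_add]; ring

theorem TOR_pair {σ ρ : Type} [Fintype σ] [Fintype ρ] (W : σ → ρ → ℤ) (p : ρ → ℤ)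
    (k : σ →₀ ℕ) : pair (Finsupp.weight W k) p = ∑ s, (k s : ℤ) * pair (W s) p := by
  have h : Finsupp.weight W k = ∑ s, k s • W s := by
    rw [Finsupp.weight_apply]
    exact Finsupp.sum_fintype _ _ (fun i => zero_smul _ _)
  unfold pair
  rw [h]
  simp only [Finset.sum_apply, Pi.smul_apply, nsmul_eq_mul, Finset.sum_mul, Finset.mul_sum]
  rw [Finset.sum_comm]
  refine Finset.sum_congr rfl fun s _ => Finset.sum_congr rfl fun i _ => ?_
  have h2 : ((k s : ρ → ℤ) * W s) i = (k s : ℤ) * W s i := rfl
  rw [h2]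
  ring

theorem TOR_prod {σ ρ : Type} [Fintype σ] [Fintype ρ] (W : σ → ρ → ℤ) (p1 p2 : ρ → ℤ)
    (l m : ℂ) (hl : l ≠ 0) (hm : m ≠ 0) (k : σ →₀ ℕ) :
    ∏ s, (l ^ (pair (W s) p1) * m ^ (pair (W s) p2)) ^ k s =
      l ^ (pair (Finsupp.weight W k) p1) * m ^ (pair (Finsupp.weight W k) p2) := by
  have h : ∀ (x : ℂ), x ≠ 0 → ∀ p : ρ → ℤ, ∏ s, (x ^ (pair (W s) p)) ^ k s =
      x ^ (pair (Finsupp.weight W k) p) := by
    intro x hx p
    rw [TOR_pair]
    induction (Finset.univ : Finset σ) using Finset.cons_induction with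
    | empty => simp
    | cons a s ha ih =>
      rw [Finset.prod_cons, Finset.sum_cons, ih, zpow_add₀ hx]
      congr 1
      rw [← zpow_natCast, ← zpow_mul, mul_comm]
  simp only [mul_pow, Finset.prod_mul_distrib]
  rw [h l hl, h m hm]

theorem t_TOR : S_TOR := by
  intro σ ρ _ _ _ W g g' e hg hg' ho hp I hI l m hl hm f hf
  obtain ⟨p1, p2, hp, hp0⟩ := hp
  have h1 : tor g g' l m = aeval (fun s => C (l ^ (pair (W s) p1) * m ^ (pair (W s) p2)) * X s) := by
    apply algHom_ext
    intro s
    unfold tor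
    rw [aeval_X, aeval_X]
    cases h2 : g s with
    | some s' =>
      obtain ⟨a1, -, a2, -⟩ := hp s s' h2
      rw [a1, a2, zpow_one, zpow_zero, mul_one]
      simp
    | none =>
      cases h3 : g' s with
      | some y =>
        have h4 : g y = some s := (ho.1 y s).2 h3
        obtain ⟨-, a1, -, a2⟩ := hp y s h4
        rw [a1, a2, zpow_one, zpow_zero, one_mul]
        simp
      | none =>
        obtain ⟨a1, a2⟩ := hp0 s h2 h3
        rw [a1, a2, zpow_zero, zpow_zero, mul_one, C_1, one_mul]
        simp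
  have h5 : tor g g' l m f = ∑ d ∈ f.support.image (Finsupp.weight W),
      C (l ^ (pair d p1) * m ^ (pair d p2)) * weightedHomogeneousComponent W d f := by
    rw [h1]
    ext k
    rw [TOR_coeff, TOR_prod W p1 p2 l m hl hm, coeff_sum]
    simp only [coeff_C_mul, coeff_weightedHomogeneousComponent]
    by_cases hk : coeff k f = 0
    · rw [hk, mul_zero]
      symm
      refine Finset.sum_eq_zero fun d _ => ?_
      simp
    · rw [Finset.sum_eq_single (Finsupp.weight W k)]
      · rw [if_pos rfl]
      · intro d _ hd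
        rw [if_neg (Ne.symm hd), mul_zero]
      · intro h6
        exact absurd (Finset.mem_image_of_mem _ (mem_support_iff.2 hk)) h6
  rw [h5]
  exact Ideal.sum_mem _ fun d _ => Ideal.mul_mem_left _ _ (hI f hf d)

end Pool.Agent.KIR.S3
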