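import Pool.Agent.KIR.S3.Row
import Pool.Agent.KIR.S3.EST
import Pool.Agent.KIR.S3.LIMI
import Pool.Agent.KIR.S3.MAT
import Pool.Agent.KIR.S3.PT
import Pool.Agent.KIR.S3.PZB
import Pool.Agent.KIR.S3.SYM
import Pool.Agent.KIR.S3.TOR
import Pool.Agent.KIR.S2.Main
import Pool.Agent.KIR.S2.GRP
import Pool.Agent.KIR.S2.VDM
import Pool.Agent.KIR.S2.PZF
import Pool.Agent.KIR.S2.CH
/-!
# KIR, section S3: `S_ROW` from the theorems of section S2 (helper61)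
-/
set_option autoImplicit false
namespace Pool.Agent.KIR
open MvPolynomial Filter Topology

/-- **Section S3**, from `S_DEG` and the formula (*) of section S2 -/
theorem t_ROW (hDEG : S_DEG) (hSTAR : S2.S_STAR) : S_ROW :=
  have hPOLY := S2.t_POLY S2.t_GRP S2.t_VDM
  S3.row hDEG hSTAR (S2.t_CH S2.t_PZF S2.t_GRP) S3.t_MAT S3.t_TOR
    (S3.t_LIMI S3.t_MAT S2.t_GRP S2.t_VDM hPOLY)
    (S3.t_PZB S3.t_MAT S2.t_GRP S2.t_VDM hPOLY S2.t_PZF)
    (S3.t_EST S3.t_MAT S2.t_GRP hPOLY) S3.t_SYM S3.t_PT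

end Pool.Agent.KIR
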