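import Pool.Agent.KIR.S2.Main
import Pool.Agent.KIR.Chain
/-!
# KIR section S3, piece PZE: `PZ` is stable under the opposite group and the reflection
-/
set_option autoImplicit false
set_option linter.all false
namespace Pool.Agent.KIR.S3x
open MvPolynomial Filter Topology Pool.Agent.KIR

section
variable {σ ρ : Type} [Fintype σ] [DecidableEq σ] [Fintype ρ]

/-- torus element -/
noncomputable def sc (W : σ → ρ → ℤ) (q : ρ → ℤ) (l : ℂ) : S σ →ₐ[ℂ] S σ :=
  aeval (fun s => C (l ^ (pair (W s) q)) * X s)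

lemma sc_X (W : σ → ρ → ℤ) (q : ρ → ℤ) (l : ℂ) (s : σ) :
    sc W q l (X s) = C (l ^ (pair (W s) q)) * X s := by
  simp [sc]

lemma pair_sum (W : σ → ρ → ℤ) (q : ρ → ℤ) (m : σ →₀ ℕ) :
    pair (Finsupp.weight W m) q = ∑ s, (m s : ℤ) * pair (W s) q := by
  unfold pair
  rw [Finsupp.weight_apply, Finsupp.sum_fintype _ _ (by intro; simp)]
  simp only [Finset.sum_apply, Pi.smul_apply, nsmul_eq_mul, Finset.sum_mul, Finset.mul_sum]
  rw [Finset.sum_comm]
  apply Finset.sum_congr rfl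
  intro s _
  apply Finset.sum_congr rfl
  intro r _
  simp only [Pi.mul_apply, Pi.natCast_apply]
  ring

lemma prod_zp {ι : Type} (T : Finset ι) (l : ℂ) (hl : l ≠ 0) (a : ι → ℤ) (m : ι → ℕ) :
    (∏ s ∈ T, (l ^ a s) ^ m s) = l ^ (∑ s ∈ T, (m s : ℤ) * a s) := by
  classical
  induction T using Finset.induction_on with
  | empty => simp
  | insert x T hx ih =>
    rw [Finset.prod_insert hx, Finset.sum_insert hx, ih, zpow_add₀ hl]
    congr 1
    rw [← zpow_natCast, ← zpow_mul, mul_comm]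

lemma sc_mono (W : σ → ρ → ℤ) (q : ρ → ℤ) (l : ℂ) (hl : l ≠ 0) (m : σ →₀ ℕ) (c : ℂ) :
    sc W q l (monomial m c) = C (l ^ (pair (Finsupp.weight W m) q)) * monomial m c := by
  rw [sc, aeval_monomial, Finsupp.prod_fintype _ _ (by intro; simp), pair_sum, monomial_eq,
    Finsupp.prod_fintype _ _ (by intro; simp)]
  simp only [mul_pow, Finset.prod_mul_distrib, ← C_pow]
  rw [← map_prod, prod_zp _ l hl (fun s => pair (W s) q) m, algebraMap_eq]
  ring

lemma sc_hom (W : σ → ρ → ℤ) (q : ρ → ℤ) (l : ℂ) (hl : l ≠ 0) (d : ρ → ℤ) (f : S σ)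
    (hf : IsWeightedHomogeneous W f d) : sc W q l f = C (l ^ (pair d q)) * f := by
  conv_lhs => rw [f.as_sum]
  conv_rhs => rw [f.as_sum]
  rw [map_sum, Finset.mul_sum]
  apply Finset.sum_congr rfl
  intro m hm
  rw [sc_mono W q l hl, hf (mem_support_iff.1 hm)]

lemma sc_mem (W : σ → ρ → ℤ) (q : ρ → ℤ) (l : ℂ) (hl : l ≠ 0) (I : Ideal (S σ)) (hI : TG W I)
    (f : S σ) (hf : f ∈ I) : sc W q l f ∈ I := by
  classical
  have h1 := sum_weightedHomogeneousComponent (w := W) f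
  rw [finsum_eq_sum _ (weightedHomogeneousComponent_finsupp f)] at h1
  rw [← h1, map_sum]
  apply Ideal.sum_mem
  intro d _
  rw [sc_hom W q l hl d _ (weightedHomogeneousComponent_isWeightedHomogeneous d f)]
  exact Ideal.mul_mem_left _ _ (hI f hf d)

/-- the three kinds of variables -/
lemma tri {g g' : σ → Option σ} {e : Equiv.Perm σ} (hg : Flat g) (hg' : Flat g')
    (ho : Opp g g' e) (s : σ) :
    (∃ s', g s = some s' ∧ g' s' = some s ∧ g s' = none ∧ g' s = none ∧ e s = s' ∧ e s' = s) ∨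
    (∃ s', g s' = some s ∧ g' s = some s' ∧ g s = none ∧ g' s' = none ∧ e s' = s ∧ e s = s') ∨
    (g s = none ∧ g' s = none ∧ e s = s) := by
  obtain ⟨h1, h2, h3⟩ := ho
  rcases hs : g s with _ | s'
  · rcases hs' : g' s with _ | s'
    · exact Or.inr (Or.inr ⟨rfl, rfl, h3 s hs hs'⟩)
    · have h4 := (h1 s' s).2 hs'
      exact Or.inr (Or.inl ⟨s', h4, rfl, rfl, hg' _ _ hs', (h2 _ _ h4).1, (h2 _ _ h4).2⟩)
  · have h4 := (h1 s s').1 hs
    exact Or.inl ⟨s', rfl, h4, hg _ _ hs, hg' _ _ h4, (h2 _ _ hs).1, (h2 _ _ hs).2⟩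

/-- `u'(r) u(t) = u(a) h(d) u'(c)`, `d = 1 + r t`, `a d = t`, `c d = r` -/
lemma id1 {W : σ → ρ → ℤ} {g g' : σ → Option σ} {e : Equiv.Perm σ} (hg : Flat g)
    (hg' : Flat g') (ho : Opp g g' e) (p1 p2 : ρ → ℤ)
    (h1 : ∀ s s', g s = some s' → pair (W s) p1 = 1 ∧ pair (W s') p1 = 0 ∧
      pair (W s) p2 = 0 ∧ pair (W s') p2 = 1)
    (h2 : ∀ s, g s = none → g' s = none → pair (W s) p1 = 0 ∧ pair (W s) p2 = 0)
    (t r d a c : ℂ) (hd : d ≠ 0) (hd1 : d = 1 + r * t) (ha : a * d = t) (hc : c * d = r) :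
    (sub g t).comp (sub g' r) = (sub g' c).comp ((sc W p1 d⁻¹).comp
      ((sc W p2 d).comp (sub g a))) := by
  apply MvPolynomial.algHom_ext
  intro s
  simp only [AlgHom.comp_apply]
  rcases tri hg hg' ho s with ⟨s', a1, a2, a3, a4, -, -⟩ | ⟨s', a1, a2, a3, a4, -, -⟩ |
    ⟨a1, a2, -⟩
  · obtain ⟨b1, b2, b3, b4⟩ := h1 _ _ a1
    simp only [sub_X, a1, a2, a3, a4, Option.elim_none, Option.elim_some, mul_zero, add_zero,
      sc_X, map_add, map_mul, algHom_C, algebraMap_eq, b1, b2, b3, b4, zpow_zero, zpow_one,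
      map_one, one_mul]
    have e1 : (C d⁻¹ + C a * C d * C c : S σ) = 1 := by
      rw [← C_mul, ← C_mul, ← C_add, ← C_1]
      congr 1
      have : a * d * c = t * c := by rw [ha]
      rw [this]
      field_simp
      linear_combination t * hc - hd1
    have e2 : (C a * C d : S σ) = C t := by
      rw [← C_mul, ha]
    linear_combination (-(X s : S σ)) * e1 - (X s' : S σ) * e2
  · obtain ⟨b1, b2, b3, b4⟩ := h1 _ _ a1
    simp only [sub_X, a1, a2, a3, a4, Option.elim_none, Option.elim_some, mul_zero, add_zero,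
      sc_X, map_add, map_mul, algHom_C, algebraMap_eq, b1, b2, b3, b4, zpow_zero, zpow_one,
      map_one, one_mul]
    have e1 : (C c * C d : S σ) = C r := by
      rw [← C_mul, hc]
    have e2 : (C d : S σ) = 1 + C r * C t := by
      rw [← C_mul, ← C_1, ← C_add, hd1]
    linear_combination (-(X s' : S σ)) * e1 - (X s : S σ) * e2
  · obtain ⟨b1, b2⟩ := h2 _ a1 a2
    simp only [sub_X, a1, a2, Option.elim_none, mul_zero, add_zero,
      sc_X, map_add, map_mul, algHom_C, b1, b2, zpow_zero, map_one, one_mul]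

/-- the reflection is a product -/
lemma id2 {W : σ → ρ → ℤ} {g g' : σ → Option σ} {e : Equiv.Perm σ} (hg : Flat g)
    (hg' : Flat g') (ho : Opp g g' e) (p1 p2 : ρ → ℤ)
    (h1 : ∀ s s', g s = some s' → pair (W s) p1 = 1 ∧ pair (W s') p1 = 0 ∧
      pair (W s) p2 = 0 ∧ pair (W s') p2 = 1)
    (h2 : ∀ s, g s = none → g' s = none → pair (W s) p1 = 0 ∧ pair (W s) p2 = 0) :
    (rename e : S σ →ₐ[ℂ] S σ) = (sub g 1).comp ((sub g' (-1)).comp ((sub g 1).comp
      (sc W p2 (-1)))) := by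
  apply MvPolynomial.algHom_ext
  intro s
  simp only [AlgHom.comp_apply, rename_X]
  rcases tri hg hg' ho s with ⟨s', a1, a2, a3, a4, a5, a6⟩ | ⟨s', a1, a2, a3, a4, a5, a6⟩ |
    ⟨a1, a2, a3⟩
  · obtain ⟨b1, b2, b3, b4⟩ := h1 _ _ a1
    simp only [sub_X, a1, a2, a3, a4, a5, Option.elim_none, Option.elim_some, mul_zero, add_zero,
      sc_X, map_add, map_mul, algHom_C, algebraMap_eq, b1, b2, b3, b4, zpow_zero, zpow_one,
      map_one, one_mul, map_neg]
    ring
  · obtain ⟨b1, b2, b3, b4⟩ := h1 _ _ a1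
    simp only [sub_X, a1, a2, a3, a4, a6, Option.elim_none, Option.elim_some, mul_zero, add_zero,
      sc_X, map_add, map_mul, algHom_C, algebraMap_eq, b1, b2, b3, b4, zpow_zero, zpow_one,
      map_one, one_mul, map_neg]
    ring
  · obtain ⟨b1, b2⟩ := h2 _ a1 a2
    simp only [sub_X, a1, a2, a3, Option.elim_none, mul_zero, add_zero,
      sc_X, map_add, map_mul, algHom_C, b1, b2, zpow_zero, map_one, one_mul]

lemma e_inv {g g' : σ → Option σ} {e : Equiv.Perm σ} (hg : Flat g) (hg' : Flat g')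
    (ho : Opp g g' e) (s : σ) : e (e s) = s := by
  rcases tri hg hg' ho s with ⟨s', a1, a2, a3, a4, a5, a6⟩ | ⟨s', a1, a2, a3, a4, a5, a6⟩ |
    ⟨a1, a2, a3⟩
  · rw [a5, a6]
  · rw [a6, a5]
  · rw [a3, a3]

/-- `n` is a value of a polynomial with coefficients in a prime ideal away from one point -/
lemma vdm_but {P : Ideal (S σ)} (h2 : S2.S_VDM) (hP : P.IsPrime) (F : Polynomial (S σ)) (t0 : ℂ)
    (h : ∀ t, t ≠ t0 → F.eval (C t) ∈ P) : ∀ t, F.eval (C t) ∈ P := by
  rw [← h2 σ P F]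
  have h3 : ∀ k, ((Polynomial.X - Polynomial.C (C t0)) * F).coeff k ∈ P := by
    rw [h2 σ P]
    intro t
    rw [Polynomial.eval_mul]
    by_cases ht : t = t0
    · subst ht
      simp
    · exact Ideal.mul_mem_left _ _ (h t ht)
  have h4 : (Polynomial.mapRingHom (Ideal.Quotient.mk P))
      ((Polynomial.X - Polynomial.C (C t0)) * F) = 0 := by
    ext k
    rw [Polynomial.coe_mapRingHom, Polynomial.coeff_map, Polynomial.coeff_zero,
      Ideal.Quotient.eq_zero_iff_mem]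
    exact h3 k
  have hdom : IsDomain (S σ ⧸ P) := Ideal.Quotient.isDomain P
  rw [map_mul, mul_eq_zero] at h4
  rcases h4 with h4 | h4
  · exfalso
    simp only [Polynomial.coe_mapRingHom, Polynomial.map_sub, Polynomial.map_X,
      Polynomial.map_C] at h4
    exact Polynomial.X_sub_C_ne_zero _ h4
  · intro k
    have := congrArg (fun G => Polynomial.coeff G k) h4
    simp only [Polynomial.coe_mapRingHom, Polynomial.coeff_map, Polynomial.coeff_zero,
      Ideal.Quotient.eq_zero_iff_mem] at this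
    exact this

theorem pze (h1 : S2.S_GRP) (h2 : S2.S_VDM) (h3 : S2.S_PZF) (W : σ → ρ → ℤ)
    (g g' : σ → Option σ) (e : Equiv.Perm σ) (P : Ideal (S σ)) (hg : Flat g) (hg' : Flat g')
    (ho : Opp g g' e) (hP : P.IsPrime) (hT : TG W P) (hS : Stab g' P)
    (htor : ∃ p1 p2 : ρ → ℤ, (∀ s s', g s = some s' → pair (W s) p1 = 1 ∧ pair (W s') p1 = 0 ∧
      pair (W s) p2 = 0 ∧ pair (W s') p2 = 1) ∧
      ∀ s, g s = none → g' s = none → pair (W s) p1 = 0 ∧ pair (W s) p2 = 0)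
    (hTZ : TG W (PZ g P)) (hSZ : Stab g (PZ g P)) :
    Stab g' (PZ g P) ∧ (PZ g P).comap (rename e : S σ →ₐ[ℂ] S σ) = PZ g P := by
  obtain ⟨p1, p2, q1, q2⟩ := htor
  have hPOLY : S_POLY := S2.t_POLY h1 h2
  have hm : ∀ f, f ∈ PZ g P ↔ ∀ t : ℂ, sub g t f ∈ P := S2.mem_PZ_iff h1 h2 h3 g P
  have k1 : Stab g' (PZ g P) := by
    rw [hPOLY]
    intro r f hf
    rw [hm] at hf ⊢
    have key : ∀ t : ℂ, 1 + r * t ≠ 0 → sub g t (sub g' r f) ∈ P := by
      intro t hd
      have := congrArg (fun φ : S σ →ₐ[ℂ] S σ => φ f) (id1 hg hg' ho p1 p2 q1 q2 t r _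
        (t / (1 + r * t)) (r / (1 + r * t)) hd rfl (div_mul_cancel₀ _ hd)
        (div_mul_cancel₀ _ hd))
      simp only [AlgHom.comp_apply] at this
      rw [this]
      refine (hPOLY σ g' P).1 hS _ _ ?_
      refine sc_mem W p1 _ (inv_ne_zero hd) P hT _ ?_
      refine sc_mem W p2 _ hd P hT _ ?_
      exact hf _
    intro t
    rw [← (h1 σ g).1 t]
    by_cases hr : r = 0
    · rw [(h1 σ g).1]
      exact key t (by rw [hr]; simp)
    · refine vdm_but h2 hP _ (-1 / r) ?_ t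
      intro t ht
      rw [(h1 σ g).1]
      apply key
      intro h
      apply ht
      rw [eq_div_iff hr]
      linear_combination h
  refine ⟨k1, ?_⟩
  have k2 : ∀ f ∈ PZ g P, rename e f ∈ PZ g P := by
    intro f hf
    rw [id2 hg hg' ho p1 p2 q1 q2]
    simp only [AlgHom.comp_apply]
    refine (hPOLY σ g _).1 hSZ _ _ ?_
    refine (hPOLY σ g' _).1 k1 _ _ ?_
    refine (hPOLY σ g _).1 hSZ _ _ ?_
    exact sc_mem W p2 _ (by norm_num) _ hTZ _ hf
  apply le_antisymm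
  · intro f hf
    have := k2 _ hf
    rw [show (rename e : S σ →ₐ[ℂ] S σ) ((rename e : S σ →ₐ[ℂ] S σ) f) = f by
      rw [rename_rename]
      have : (e ∘ e : σ → σ) = id := by
        funext s; exact e_inv hg hg' ho s
      rw [this, rename_id_apply]] at this
    exact this
  · intro f hf
    exact k2 f hf

end
end Pool.Agent.KIR.S3x
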