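import Pool.Agent.KIR.S3.Stm
import Pool.Agent.KIR.Base
/-!
# KIR, section S3: assembly of S_ROW (helper61)
-/
set_option autoImplicit false
namespace Pool.Agent.KIR.S3
open MvPolynomial Filter Topology Pool.Agent.KIR Pool.Agent.KIR.S2

theorem exists_pair {σ : Type} [Fintype σ] {g : σ → Option σ} {P : Ideal (S σ)}
    (hns : ¬ Stab g P) : ∃ s s', g s = some s' := by
  by_contra hcon
  push Not at hcon
  apply hns
  have hnone : ∀ s, g s = none := by
    intro s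
    rcases h : g s with _ | s'
    · rfl
    · exact absurd h (hcon s s')
  have hop : op g = (Polynomial.CAlgHom : S σ →ₐ[ℂ] Polynomial (S σ)) := by
    apply MvPolynomial.algHom_ext
    intro s
    unfold op
    rw [aeval_X, hnone s]
    simp
  intro f hf k
  rw [hop]
  change (Polynomial.C f).coeff k ∈ P
  rw [Polynomial.coeff_C]
  split_ifs
  · exact hf
  · exact P.zero_mem

theorem row_JJ (hSTAR : S_STAR) (hCH : S_CH) (hMAT : S_MAT) (hLIMI : S_LIMI) (hSYM : S_SYM)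
    (hPT : S_PT) {σ ρ : Type} [Fintype σ] [DecidableEq σ] [Fintype ρ] (W : σ → ρ → ℤ)
    (g g' : σ → Option σ) (e : Equiv.Perm σ) (α : ρ → ℤ) (P : Ideal (S σ))
    (hg : Flat g) (hg' : Flat g') (ho : Opp g g' e) (hw : OpWt W g α) (hTG : TG W P)
    (hJtg : TG W (JJ g P)) (hns : ¬ Stab g P) (hst : Stab g' P) (hTS : TS g g' P)
    (hpos : ∃ p, Pos W p)
    (htor : ∃ p1 p2 : ρ → ℤ, (∀ s s', g s = some s' → pair (W s) p1 = 1 ∧ pair (W s') p1 = 0 ∧
      pair (W s) p2 = 0 ∧ pair (W s') p2 = 1) ∧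
      ∀ s, g s = none → g' s = none → pair (W s) p1 = 0 ∧ pair (W s) p2 = 0) :
    JJ g P = P.comap (rename e : S σ →ₐ[ℂ] S σ) := by
  obtain ⟨-, -, hee, -⟩ := hMAT σ g g' e hg hg' ho
  have h1 : P.comap (rename e : S σ →ₐ[ℂ] S σ) ≤ JJ g P := by
    intro f hf
    rw [Ideal.mem_comap] at hf
    have := hLIMI σ g g' e P hg hg' ho hst hTS _ hf
    rw [hee] at this
    exact this
  obtain ⟨p, hp, hα, hsym⟩ := hPT σ ρ W g g' e α hg hg' ho hw (exists_pair hns) hpos htor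
  obtain ⟨N, hN, hJ, hI⟩ := hCH σ g P hg
  have hwp : ∀ s, 0 < wt W p s := Base.wt_pos W p hp
  have hws : ∀ s, wt W p (e s) = wt W p s := by
    intro s
    unfold wt
    rw [hsym s]
  have h2 : Hs (wt W p) P (1 / 2) = Hs (wt W p) (JJ g P) (1 / 2) := by
    have := hSTAR σ ρ W g α P N hw hTG (hJ N le_rfl) (hI N le_rfl) p hp hα.ge (1 / 2)
      (by norm_num) (by norm_num)
    rw [hα] at this
    simpa using this
  have h3 := (hSYM σ e (wt W p) (wt W p) hws P).2.1 (1 / 2)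
  have h4 : Hs (wt W p) (P.comap (rename e : S σ →ₐ[ℂ] S σ)) (1 / 2) =
      Hs (wt W p) (JJ g P) (1 / 2) := by rw [← h3, h2]
  have h5 : ∀ a, hf (wt W p) (P.comap (rename e : S σ →ₐ[ℂ] S σ)) a ≤ hf (wt W p) (JJ g P) a := by
    intro a
    by_contra hcon
    push Not at hcon
    have h6 : Hs (wt W p) (JJ g P) (1 / 2) <
        Hs (wt W p) (P.comap (rename e : S σ →ₐ[ℂ] S σ)) (1 / 2) := by
      unfold Hs
      refine Summable.tsum_lt_tsum (i := a) (fun b => ?_) ?_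
        (Base.summ (wt W p) hwp (JJ g P) (by norm_num) (by norm_num))
        (Base.summ (wt W p) hwp _ (by norm_num) (by norm_num))
      · have h7 := Base.hf_mono (wt W p) hwp h1 b
        exact mul_le_mul_of_nonneg_right (Nat.cast_le.mpr h7) (by positivity)
      · exact mul_lt_mul_of_pos_right (Nat.cast_lt.mpr hcon) (by positivity)
    exact absurd h4.symm h6.ne
  exact (Base.eq_of_hf (wt W p) hwp h1 (Base.TG_Gr W p hp hJtg) h5).symm

/-- **Section S3**: `S_ROW` -/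
theorem row (hDEG : S_DEG) (hSTAR : S_STAR) (hCH : S_CH) (hMAT : S_MAT) (hTOR : S_TOR)
    (hLIMI : S_LIMI) (hPZB : S_PZB) (hEST : S_EST) (hSYM : S_SYM) (hPT : S_PT) : S_ROW := by
  intro σ ρ _ _ _ W g g' e α P hg hg' ho hw hP hTG hns hst hpos htor
  obtain ⟨-, hZtg, hJtg, -, -, hsg, -, m, hm, hdeg⟩ := hDEG σ ρ W g α P hg hw hP hTG hns hpos
  have hTS := hTOR σ ρ W g g' e hg hg' ho htor P hTG
  have hTSz := hTOR σ ρ W g g' e hg hg' ho htor (PZ g P) hZtg
  have hZb := hPZB σ g g' e P hg hg' ho hst hTS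
  have hZe := hEST σ g g' e (PZ g P) hg hg' ho hsg hZb hTSz
  have hJ := row_JJ hSTAR hCH hMAT hLIMI hSYM hPT W g g' e α P hg hg' ho hw hTG hJtg hns hst hTS
    hpos htor
  refine ⟨hJ, hZb, m, hm, fun p p' hp hp' hpp hα c hc => ?_⟩
  obtain ⟨a1, a2, a3, a4⟩ := hdeg p hp hα c hc
  have hws : ∀ s, wt W p' (e s) = wt W p s := by
    intro s
    unfold wt
    rw [hpp s]
  have hP' := (hSYM σ e (wt W p) (wt W p') hws P).2.2 (c + 1)
  have hZ' := (hSYM σ e (wt W p) (wt W p') hws (PZ g P)).2.2 c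
  rw [hZe] at hZ'
  rw [hJ] at a1 a4
  exact ⟨hP'.1.mpr a1, a2, hZ'.1.mpr a2, a3, hZ'.2, by rw [hP'.2]; exact a4⟩

end Pool.Agent.KIR.S3
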