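import Pool.Agent.KIR.S2.Stm
/-!
# KIR, section S3: statements of the pieces (helper61)

Notation: for a pair `g s = some s'` (equivalently `g' s' = some s`) the algebra homomorphisms act on the
span of `z_s, z_s'`: `sub g t : z_s ↦ z_s + t z_s', z_s' ↦ z_s'`, `sub g' r : z_s' ↦ z_s' + r z_s, z_s ↦ z_s`,
`rename e : z_s ↦ z_s', z_s' ↦ z_s`, `tor g g' l m : z_s ↦ l z_s, z_s' ↦ m z_s'`. All of them fix the variables
which are in no pair. (By `Flat` and `Opp` every variable is in at most one pair and in one role.)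
-/
set_option autoImplicit false
namespace Pool.Agent.KIR.S3
open MvPolynomial Filter Topology Pool.Agent.KIR Pool.Agent.KIR.S2

/-- the torus element: `X s ↦ l X s` if `g s` is some, `X s ↦ m X s` if `g' s` is some -/
noncomputable def tor {σ : Type} (g g' : σ → Option σ) (l m : ℂ) : S σ →ₐ[ℂ] S σ :=
  aeval (fun s => if (g s).isSome then C l * X s else if (g' s).isSome then C m * X s else X s)

/-- `I` is stable under these torus elements -/
def TS {σ : Type} (g g' : σ → Option σ) (I : Ideal (S σ)) : Prop :=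
  ∀ l m : ℂ, l ≠ 0 → m ≠ 0 → ∀ f ∈ I, tor g g' l m f ∈ I

/-- PIECE MAT (120 lines).  Matrix identities.

Proof. All are equalities of algebra homomorphisms (`MvPolynomial.algHom_ext`), check on `X x`: either
`g x = some x'` (then `g x' = none` by `Flat g`, `g' x' = some x`, `e x = x'`, `e x' = x`, `g' x = none` because
otherwise `g' x' = none` ... by `Flat g'`: `g' x' = some x` gives `g' x = none`), or `g' x = some y`, that is
`g y = some x` (the same pair with the roles exchanged), or both are `none` and `x` is fixed by everything.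
(1) on `z_s`: `sub g t (rename e (z_s - t⁻¹ z_s')) = sub g t (z_s' - t⁻¹ z_s) = z_s' - t⁻¹ z_s - z_s' = - t⁻¹ z_s`, and
the right side is `- t⁻¹ z_s`; on `z_s'`: `sub g t (z_s) = z_s + t z_s'`, the right side is
`sub g' t⁻¹ (t z_s') = t z_s' + z_s`. (2) on `z_s`: left `z_s + t z_s'`; right, with `u = 1 + r t`:
`z_s + (t/u) z_s' ↦ (1/u) z_s + t z_s' ↦ (1/u) z_s + t z_s' + t (r/u) z_s = z_s + t z_s'`; on `z_s'`: left
`z_s' + r z_s + r t z_s'`, right `z_s' ↦ u z_s' ↦ u z_s' + r z_s`. (3) `e (e x) = x`. -/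
def S_MAT : Prop := ∀ (σ : Type) [Fintype σ] [DecidableEq σ] (g g' : σ → Option σ)
  (e : Equiv.Perm σ), Flat g → Flat g' → Opp g g' e →
  (∀ t : ℂ, t ≠ 0 → ∀ f : S σ,
    sub g t (rename e (sub g (-t⁻¹) f)) = sub g' t⁻¹ (tor g g' (-t⁻¹) t f)) ∧
  (∀ t r : ℂ, 1 + r * t ≠ 0 → ∀ f : S σ, sub g t (sub g' r f) =
    sub g' (r / (1 + r * t)) (tor g g' (1 + r * t)⁻¹ (1 + r * t) (sub g (t / (1 + r * t)) f))) ∧
  (∀ f : S σ, rename e (rename e f) = f) ∧ (∀ s, e (e s) = s)

/-- PIECE TOR (100 lines).  A graded ideal is stable under the torus elements.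

Proof. Let `c s = l ^ (pair (W s) p1) * m ^ (pair (W s) p2)` (`zpow`); by the hypotheses and `Opp`
`c s = l` if `g s` is some, `c s = m` if `g' s` is some (`g' s = some y` means `g y = some s`), `1`
otherwise. So `tor g g' l m f = aeval (fun s => C (c s) * X s) f`, which multiplies a monomial with exponent `k`
by `∏ s, c s ^ k s = l ^ (pair d p1) * m ^ (pair d p2)`, `d = weight W k`. So it multiplies the component of
weight `d` of `f` by a constant; `f` is the sum of its components (`sum_weightedHomogeneousComponent` /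
`finsum`), each is in `I`. -/
def S_TOR : Prop := ∀ (σ ρ : Type) [Fintype σ] [DecidableEq σ] [Fintype ρ] (W : σ → ρ → ℤ)
  (g g' : σ → Option σ) (e : Equiv.Perm σ), Flat g → Flat g' → Opp g g' e →
  (∃ p1 p2 : ρ → ℤ, (∀ s s', g s = some s' → pair (W s) p1 = 1 ∧ pair (W s') p1 = 0 ∧
      pair (W s) p2 = 0 ∧ pair (W s') p2 = 1) ∧
    ∀ s, g s = none → g' s = none → pair (W s) p1 = 0 ∧ pair (W s) p2 = 0) →
  ∀ I : Ideal (S σ), TG W I → TS g g' I

/-- PIECE LIMI (100 lines).  The reflected ideal is in the limit.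

Proof. Let `f ∈ P`, `D_k f = (op g f).coeff k`, `K = natDegree (op g f)`. For `u : ℂ`,
`sub g u f = ∑_{k ≤ K} C (u^k) * D_k f` (`S_GRP` (1)). For `t ≠ 0` `S_MAT` (1) gives
`sub g t (∑_{k ≤ K} C ((-t⁻¹)^k) * rename e (D_k f)) = sub g' t⁻¹ (tor .. f) ∈ P` (`TS`, then `Stab g' P` and
`S_POLY`). Multiply by `C (t^K)`: the value at `C t` of
`R := ∑_{k ≤ K} C (C ((-1)^k)) * X^(K-k) * op g (rename e (D_k f)) : Polynomial (S σ)` is in `P` for every `t ≠ 0`.
Hence the values of `X * R` are in `P` for all `t : ℂ`, so by `S_VDM` all coefficients of `X * R`, and of `R`, are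
in `P`. Map to `(S/P)[X]`: with `D_0 f = f` (`S_GRP` (4)):
`X^K * opm g P (rename e f) = ∑_{j < K} X^j * opm g P (h j)`, `h j = - C ((-1)^(K-j)) * rename e (D_(K-j) f)`.
That is `InJ g P K (rename e f)`, so `rename e f ∈ JJ g P` (`Ideal.subset_span`). -/
def S_LIMI : Prop := ∀ (σ : Type) [Fintype σ] [DecidableEq σ] (g g' : σ → Option σ)
  (e : Equiv.Perm σ) (P : Ideal (S σ)), Flat g → Flat g' → Opp g g' e → Stab g' P → TS g g' P →
  ∀ f ∈ P, rename e f ∈ JJ g P

/-- PIECE PZB (80 lines).  `PZ` is stable under the opposite group.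

Proof. `f ∈ PZ g P` iff `∀ t, sub g t f ∈ P` (`S_PZF` (1), `S_VDM` for `F = op g f`, `S_GRP` (1)). By `S_POLY` let
`f ∈ PZ g P`, `r : ℂ`; to show `sub g' r f ∈ PZ g P`. For every `t` with `1 + r t ≠ 0`: `sub g t (sub g' r f) ∈ P` by
`S_MAT` (2): `sub g (..) f ∈ P`, then `TS`, then `Stab g' P` (`S_POLY`). The polynomial
`(1 + C r * X) * op g (sub g' r f)` (constants in `S`) has its values at all `C t` in `P`, so its coefficients are in
`P` (`S_VDM`); by induction on `k` the coefficients `a_k` of `op g (sub g' r f)` are in `P`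
(`a_0 ∈ P`, `a_(k+1) + r a_k ∈ P`). -/
def S_PZB : Prop := ∀ (σ : Type) [Fintype σ] [DecidableEq σ] (g g' : σ → Option σ)
  (e : Equiv.Perm σ) (P : Ideal (S σ)), Flat g → Flat g' → Opp g g' e → Stab g' P → TS g g' P →
  Stab g' (PZ g P)

/-- PIECE EST (50 lines).  An ideal stable under both groups and the torus is stable under `e`.

Proof. `S_MAT` (1) for `t = 1` and `sub g 1 f` in the place of `f`:
`sub g 1 (rename e (sub g (-1) (sub g 1 f))) = sub g' 1 (tor g g' (-1) 1 (sub g 1 f))`; `sub g (-1) (sub g 1 f) = f`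
(`S_GRP` (2), (3)). The right side is in `I` for `f ∈ I` (`S_POLY`, `TS`), apply `sub g (-1)`:
`rename e f ∈ I`. Equality of the ideals: `rename e (rename e f) = f`. -/
def S_EST : Prop := ∀ (σ : Type) [Fintype σ] [DecidableEq σ] (g g' : σ → Option σ)
  (e : Equiv.Perm σ) (I : Ideal (S σ)), Flat g → Flat g' → Opp g g' e → Stab g I → Stab g' I →
  TS g g' I → I.comap (rename e : S σ →ₐ[ℂ] S σ) = I

/-- PIECE SYM (100 lines).  A permutation of the variables.

Proof. `φ = rename e` is an automorphism (`renameEquiv`); it maps `weightedHomogeneousSubmodule ℂ w a` onto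
`weightedHomogeneousSubmodule ℂ w' a` (a monomial with exponent `m` goes to the one with exponent `m.mapDomain e`,
of `w'`-weight `∑ m s * w' (e s) = weight w m`; `IsWeightedHomogeneous` of a `rename`, or coefficients, the inverse
is `rename e.symm`). The `ℂ`-linear map `S/(comap φ I) → S/I` induced by `φ` is injective (even bijective:
`Ideal.quotientEquivAlg` or `Ideal.quotientMapₐ` with `Ideal.quotientMap_injective`) and maps the image of
`S_a(w)` onto the image of `S_a(w')` (`Submodule.map_comp`), so the dimensions `hf` agree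
(`LinearMap.finrank_map_eq` / `LinearEquiv.finrank_map_eq`, `Submodule.equivMapOfInjective`).
Then `Hs`, the product of the weights (`Equiv.prod_comp e`), hence the functions `G`, agree. -/
def S_SYM : Prop := ∀ (σ : Type) [Fintype σ] [DecidableEq σ] (e : Equiv.Perm σ) (w w' : σ → ℕ),
  (∀ s, w' (e s) = w s) → ∀ I : Ideal (S σ),
  (∀ a, hf w' I a = hf w (I.comap (rename e : S σ →ₐ[ℂ] S σ)) a) ∧
  (∀ q, Hs w' I q = Hs w (I.comap (rename e : S σ →ₐ[ℂ] S σ)) q) ∧
  ∀ c, (Has c w' I ↔ Has c w (I.comap (rename e : S σ →ₐ[ℂ] S σ))) ∧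
    cl c w' I = cl c w (I.comap (rename e : S σ →ₐ[ℂ] S σ))

/-- PIECE PT (80 lines).  A symmetric parameter vector.

Proof. Take `p` with `Pos W p`, `τ = pair α p`, `p' = 2 p - τ (p1 - p2)`. For a pair `g s = some s'`:
`W s = W s' + α`, so `pair α p1 = 1 - 0 = 1`, `pair α p2 = 0 - 1 = -1`, `τ = pair (W s) p - pair (W s') p`, and
`pair (W s) p' = 2 pair (W s) p - τ = pair (W s) p + pair (W s') p > 0`,
`pair (W s') p' = 2 pair (W s') p + τ =` the same. For `s` in no pair `pair (W s) p' = 2 pair (W s) p`. As there is a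
pair, `pair α p' = 2 τ - 2 τ = 0`. Symmetry: `e s = s'`, `e s' = s` for a pair (`g' s' = some s` iff
`g s = some s'`), `e s = s` otherwise. (`pair α` is linear in the second argument.) -/
def S_PT : Prop := ∀ (σ ρ : Type) [Fintype σ] [DecidableEq σ] [Fintype ρ] (W : σ → ρ → ℤ)
  (g g' : σ → Option σ) (e : Equiv.Perm σ) (α : ρ → ℤ),
  Flat g → Flat g' → Opp g g' e → OpWt W g α → (∃ s s', g s = some s') → (∃ p, Pos W p) →
  (∃ p1 p2 : ρ → ℤ, (∀ s s', g s = some s' → pair (W s) p1 = 1 ∧ pair (W s') p1 = 0 ∧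
      pair (W s) p2 = 0 ∧ pair (W s') p2 = 1) ∧
    ∀ s, g s = none → g' s = none → pair (W s) p1 = 0 ∧ pair (W s) p2 = 0) →
  ∃ p, Pos W p ∧ pair α p = 0 ∧ ∀ s, pair (W (e s)) p = pair (W s) p

end Pool.Agent.KIR.S3
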